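import Mathlib

/-!
# Superunitary regions and indecomposable real basis elements: Q1 fails with coefficients

We use Fomin-Zelevinsky's definition of a (skew-symmetrizable) cluster algebra of geometric type:
`n` mutable directions, `m` frozen variables which are inverted in the cluster algebra, and
arbitrary extended exchange matrix with skew-symmetrizable principal part.  A cluster monomial is
a product of non-negative powers of elements of one extended cluster.

The counterexample lives in type `A₁` with one frozen variable `y`: `x x' = y + 1` and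
`𝒜 = ℤ[y, y⁻¹, x, x']`.  The usual basis `y^n x^k, y^n x'^k` (`n : ℤ`, `k ≥ 0`) is changed by
replacing `y^n`, `n < 0`, by `y^n + y^(n+1)`.  This is still a `ℤ`-basis with non-negative
structure constants and it still contains all cluster monomials, but no element with `n < 0` is
real, so the real elements do not see that `y⁻¹` may be small.
-/

namespace Pool.Agent.Results.MP_fc212e_co.FrozenCounterexample

/-- Index set of an extended cluster: `n` mutable and `m` frozen directions. -/
abbrev Idx (n m : ℕ) := Fin n ⊕ Fin m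

/-- A (labelled) seed in a field `F`: an extended cluster together with an extended exchange
matrix (rows: all directions, columns: mutable directions). -/
structure Seed (F : Type) (n m : ℕ) where
  z : Idx n m → F
  b : Idx n m → Fin n → ℤ

section Defs

variable {F : Type} [Field F] {n m : ℕ}

/-- Seed mutation in direction `k`. -/
noncomputable def Seed.mutate (s : Seed F n m) (k : Fin n) : Seed F n m where
  z := Function.update s.z (Sum.inl k)
    ((∏ i, s.z i ^ (s.b i k).toNat + ∏ i, s.z i ^ (-(s.b i k)).toNat) / s.z (Sum.inl k))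
  b := fun i j =>
    if i = Sum.inl k ∨ j = k then - s.b i j
    else s.b i j + max (s.b i k) 0 * max (s.b (Sum.inl k) j) 0
      - max (-(s.b i k)) 0 * max (-(s.b (Sum.inl k) j)) 0

/-- Seeds obtained from the seed `s₀` by finitely many mutations. -/
inductive Reachable (s₀ : Seed F n m) : Seed F n m → Prop
  | init : Reachable s₀ s₀
  | step (s : Seed F n m) (k : Fin n) : Reachable s₀ s → Reachable s₀ (s.mutate k)

/-- `s₀` is a seed in the sense of the theory: its extended cluster is algebraically independent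
over `ℚ`, and the principal part of its exchange matrix is skew-symmetrizable. -/
def IsSeed [Algebra ℚ F] (s₀ : Seed F n m) : Prop :=
  AlgebraicIndependent ℚ s₀.z ∧
    ∃ d : Fin n → ℤ, (∀ i, 0 < d i) ∧
      ∀ i j, d i * s₀.b (Sum.inl i) j = -(d j * s₀.b (Sum.inl j) i)

/-- Cluster variables. -/
def IsClusterVariable (s₀ : Seed F n m) (f : F) : Prop :=
  ∃ s, Reachable s₀ s ∧ ∃ i : Fin n, f = s.z (Sum.inl i)

/-- Frozen variables. -/
def IsFrozenVariable (s₀ : Seed F n m) (f : F) : Prop :=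
  ∃ j : Fin m, f = s₀.z (Sum.inr j)

/-- Cluster monomials: products of non-negative powers of the elements of an extended cluster. -/
def IsClusterMonomial (s₀ : Seed F n m) (f : F) : Prop :=
  ∃ s, Reachable s₀ s ∧ ∃ e : Idx n m → ℕ, f = ∏ i, s.z i ^ e i

/-- The cluster algebra: the subring generated by all cluster variables, the frozen variables and
the inverses of the frozen variables. -/
def clusterAlgebra (s₀ : Seed F n m) : Subring F :=
  Subring.closure {f | IsClusterVariable s₀ f ∨ IsFrozenVariable s₀ f ∨ IsFrozenVariable s₀ f⁻¹}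

/-- A good basis: a `ℤ`-basis containing all cluster monomials, with structure constants in
`ℤ_{≥0}`. -/
structure IsGoodBasis (s₀ : Seed F n m) {ι : Type}
    (β : Module.Basis ι ℤ (clusterAlgebra s₀)) : Prop where
  monomials : ∀ f : clusterAlgebra s₀, IsClusterMonomial s₀ (f : F) → f ∈ Set.range β
  nonneg : ∀ i j k : ι, 0 ≤ β.repr (β i * β j) k

/-- `b` is real: its square lies in the basis. -/
def IsReal {s₀ : Seed F n m} {ι : Type}
    (β : Module.Basis ι ℤ (clusterAlgebra s₀)) (i : ι) : Prop :=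
  β i ^ 2 ∈ Set.range β

/-- `b` is indecomposable: whenever `b = cd` in the basis, `c` or `d` is a unit. -/
def IsIndecomposable {s₀ : Seed F n m} {ι : Type}
    (β : Module.Basis ι ℤ (clusterAlgebra s₀)) (i : ι) : Prop :=
  ∀ j k : ι, β i = β j * β k → IsUnit (β j) ∨ IsUnit (β k)

/-- `𝒜(ℝ_{>0})`: positive on all cluster variables (and on all frozen variables). -/
def TotallyPositive (s₀ : Seed F n m) (p : clusterAlgebra s₀ →+* ℝ) : Prop :=
  ∀ f : clusterAlgebra s₀,
    (IsClusterVariable s₀ (f : F) ∨ IsFrozenVariable s₀ (f : F)) → 0 < p f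

/-- The `𝔅`-superunitary region `𝒜_𝔅(ℝ_{≥1})`. -/
def superunitary {s₀ : Seed F n m} {ι : Type}
    (β : Module.Basis ι ℤ (clusterAlgebra s₀)) : Set (clusterAlgebra s₀ →+* ℝ) :=
  {p | ∀ i, 1 ≤ p (β i)}

/-- The right-hand side of Q1. -/
def realSuperunitary {s₀ : Seed F n m} {ι : Type}
    (β : Module.Basis ι ℤ (clusterAlgebra s₀)) : Set (clusterAlgebra s₀ →+* ℝ) :=
  {p | TotallyPositive s₀ p ∧ ∀ i, IsReal β i → IsIndecomposable β i → 1 ≤ p (β i)}

/-- The cluster algebra of the seed `s₀` has a good basis and a ring homomorphism `p` to `ℝ`,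
positive on all cluster and frozen variables, with `p b ≥ 1` for *all* real basis elements `b`
(indecomposable or not), but `p b' < 1` for some basis element `b'`. -/
def StrongCounterexample (s₀ : Seed F n m) : Prop :=
  ∃ (ι : Type) (β : Module.Basis ι ℤ (clusterAlgebra s₀)) (p : clusterAlgebra s₀ →+* ℝ),
    IsGoodBasis s₀ β ∧ TotallyPositive s₀ p ∧ (∀ i, IsReal β i → 1 ≤ p (β i)) ∧ ∃ i, p (β i) < 1

end Defs

/-- The statement Q1 for all skew-symmetrizable cluster algebras of geometric type. -/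
def QuestionOne : Prop :=
  ∀ (F : Type) [Field F] [Algebra ℚ F] (n m : ℕ) (s₀ : Seed F n m), IsSeed s₀ →
    ∀ (ι : Type) (β : Module.Basis ι ℤ (clusterAlgebra s₀)), IsGoodBasis s₀ β →
      superunitary β = realSuperunitary β

/-! ### The counterexample: type `A₁` with one frozen variable, `x x' = y + 1` -/

/-- The ambient field `ℚ(x, y)`. -/
abbrev Amb := FractionRing (MvPolynomial (Idx 1 1) ℚ)

/-- The initial seed: variables `x`, `y` and extended exchange matrix `(0, 1)ᵗ`. -/
noncomputable def B₁ : Seed Amb 1 1 where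
  z := fun i => algebraMap (MvPolynomial (Idx 1 1) ℚ) Amb (MvPolynomial.X i)
  b := fun i _ => Sum.elim (fun _ => 0) (fun _ => 1) i

noncomputable def x : Amb := algebraMap (MvPolynomial (Idx 1 1) ℚ) (Amb)
  (MvPolynomial.X (Sum.inl 0))
noncomputable def y : Amb := algebraMap (MvPolynomial (Idx 1 1) ℚ) (Amb)
  (MvPolynomial.X (Sum.inr 0))
noncomputable def x' : Amb := (y + 1) / x

lemma algMap_inj : Function.Injective (algebraMap (MvPolynomial (Idx 1 1) ℚ) (Amb)) :=
  IsFractionRing.injective _ _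

lemma x_ne : x ≠ 0 := by
  unfold x
  rw [Ne, map_eq_zero_iff _ algMap_inj]
  exact MvPolynomial.X_ne_zero _

lemma y_ne : y ≠ 0 := by
  unfold y
  rw [Ne, map_eq_zero_iff _ algMap_inj]
  exact MvPolynomial.X_ne_zero _

lemma y1_ne : y + 1 ≠ 0 := by
  have h : y + 1 = algebraMap (MvPolynomial (Idx 1 1) ℚ) (Amb)
      (MvPolynomial.X (Sum.inr 0) + 1) := by simp [y]
  rw [h, Ne, map_eq_zero_iff _ algMap_inj]
  intro h0
  have := congrArg (MvPolynomial.eval (fun _ => (1 : ℚ))) h0
  simp at this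

lemma x'_ne : x' ≠ 0 := div_ne_zero y1_ne x_ne

lemma xx' : x * x' = y + 1 := by
  unfold x'; field_simp [x_ne]

/-- The second seed. -/
noncomputable def s₁ : Seed Amb 1 1 where
  z := fun i => Sum.elim (fun _ => x') (fun _ => y) i
  b := fun i _ => Sum.elim (fun _ => 0) (fun _ => -1) i

lemma B₁_z : B₁.z = fun i => Sum.elim (fun _ => x) (fun _ => y) i := by
  funext i
  rcases i with i | i
  · fin_cases i; rfl
  · fin_cases i; rfl

/-- the initial exchange matrix -/
def b₁ : Idx 1 1 → Fin 1 → ℤ := fun i _ => Sum.elim (fun _ => 0) (fun _ => 1) i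

lemma mutate_B₁ : B₁.mutate 0 = s₁ := by
  unfold Seed.mutate
  rw [B₁_z]
  have hb : B₁.b = b₁ := rfl
  rw [hb]
  unfold s₁
  congr 1
  · funext i
    rcases i with i | i
    · fin_cases i
      simp [b₁, x']
    · fin_cases i
      simp
  · funext i j
    fin_cases j
    rcases i with i | i <;> simp [b₁]

lemma mutate_s₁ : s₁.mutate 0 = B₁ := by
  have h : B₁ = ⟨fun i => Sum.elim (fun _ => x) (fun _ => y) i, b₁⟩ := by
    rw [← B₁_z]; rfl
  rw [h]
  unfold Seed.mutate s₁
  congr 1
  · funext i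
    rcases i with i | i
    · fin_cases i
      have := xx'
      have h1 := x'_ne
      simp only [Fin.isValue, Fintype.prod_sum_type, Finset.univ_unique, Fin.default_eq_zero,
        Sum.elim_inl, Finset.prod_const, Finset.card_singleton, pow_one, Sum.elim_inr]
      simp
      rw [div_eq_iff h1, xx']
      ring
    · fin_cases i
      simp
  · funext i j
    fin_cases j
    rcases i with i | i <;> simp [b₁]

lemma reachable_iff (s : Seed Amb 1 1) : Reachable B₁ s ↔ s = B₁ ∨ s = s₁ := by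
  constructor
  · intro h
    induction h with
    | init => exact Or.inl rfl
    | step s k _ ih =>
      have hk : k = 0 := Subsingleton.elim _ _
      subst hk
      rcases ih with rfl | rfl
      · right; exact mutate_B₁
      · left; exact mutate_s₁
  · rintro (rfl | rfl)
    · exact Reachable.init
    · rw [← mutate_B₁]; exact Reachable.step _ _ Reachable.init

lemma isClusterVariable_iff (f : Amb) : IsClusterVariable B₁ f ↔ f = x ∨ f = x' := by
  constructor
  · rintro ⟨s, hs, i, rfl⟩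
    have hi : i = 0 := Subsingleton.elim _ _
    subst hi
    rcases (reachable_iff s).1 hs with rfl | rfl
    · left; rw [B₁_z]; rfl
    · right; rfl
  · rintro (rfl | rfl)
    · exact ⟨_, Reachable.init, 0, by rw [B₁_z]; rfl⟩
    · exact ⟨s₁, (reachable_iff s₁).2 (Or.inr rfl), 0, rfl⟩

lemma isFrozenVariable_iff (f : Amb) : IsFrozenVariable B₁ f ↔ f = y := by
  constructor
  · rintro ⟨j, rfl⟩
    rw [B₁_z]; rfl
  · rintro rfl
    exact ⟨0, by rw [B₁_z]; rfl⟩

/-- `E k = x^k` for `k ≥ 0` and `x'^{-k}` for `k < 0`. -/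
noncomputable def E (k : ℤ) : Amb := if 0 ≤ k then x ^ k.toNat else x' ^ (-k).toNat

/-- `w n = y^n` for `n ≥ 0` and `y^n (1 + y)` for `n < 0`. -/
noncomputable def w (n : ℤ) : Amb := if 0 ≤ n then y ^ n else y ^ n * (1 + y)

noncomputable def v (q : ℤ × ℤ) : Amb := E q.1 * w q.2

lemma w_nonneg {n : ℤ} (h : 0 ≤ n) : w n = y ^ n := if_pos h
lemma w_neg {n : ℤ} (h : n < 0) : w n = y ^ n * (1 + y) := if_neg (not_le.2 h)

lemma E_natCast (k : ℕ) : E k = x ^ k := by simp [E]
lemma E_neg_natCast (k : ℕ) : E (-k) = x' ^ k := by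
  unfold E
  rcases Nat.eq_zero_or_pos k with rfl | hk
  · simp
  · rw [if_neg (by omega)]; congr 1; omega

lemma E_mul (k l : ℤ) : ∃ r : ℕ, E k * E l = (1 + y) ^ r * E (k + l) := by
  have key : ∀ a b : ℕ, ∃ r : ℕ, x ^ a * x' ^ b = (1 + y) ^ r * E (a - b) := by
    intro a b
    rcases le_total a b with h | h
    · obtain ⟨c, rfl⟩ := Nat.exists_eq_add_of_le h
      refine ⟨a, ?_⟩
      have : ((a : ℤ) - ((a + c : ℕ) : ℤ)) = -(c : ℤ) := by push_cast; ring
      rw [this, E_neg_natCast, pow_add, ← mul_assoc, ← mul_pow, xx', add_comm y 1]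
    · obtain ⟨c, rfl⟩ := Nat.exists_eq_add_of_le h
      refine ⟨b, ?_⟩
      have : (((b + c : ℕ) : ℤ) - (b : ℤ)) = (c : ℤ) := by push_cast; ring
      rw [this, E_natCast, pow_add, mul_right_comm, ← mul_pow, xx', add_comm y 1]
  rcases Int.eq_nat_or_neg k with ⟨a, rfl | rfl⟩ <;> rcases Int.eq_nat_or_neg l with ⟨b, rfl | rfl⟩
  · refine ⟨0, ?_⟩
    rw [E_natCast, E_natCast, ← Nat.cast_add, E_natCast, pow_add]; simp
  · obtain ⟨r, hr⟩ := key a b
    refine ⟨r, ?_⟩
    rw [E_natCast, E_neg_natCast, hr]; rfl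
  · obtain ⟨r, hr⟩ := key b a
    refine ⟨r, ?_⟩
    rw [E_natCast, E_neg_natCast, mul_comm, hr]; congr 2; ring
  · refine ⟨0, ?_⟩
    rw [E_neg_natCast, E_neg_natCast, ← neg_add, ← Nat.cast_add, E_neg_natCast, pow_add]; simp

/-- Non-negative combinations of the `w n`. -/
noncomputable def Mw : AddSubmonoid (Amb) := AddSubmonoid.closure (Set.range w)

lemma w_mem (n : ℤ) : w n ∈ Mw := AddSubmonoid.subset_closure ⟨n, rfl⟩

lemma y_zpow_succ (n : ℤ) : y ^ n * y = y ^ (n + 1) := (zpow_add_one₀ y_ne n).symm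

lemma one_add_y_mul_w (n : ℤ) : (1 + y) * w n ∈ Mw := by
  rcases le_or_gt 0 n with h | h
  · have : (1 + y) * w n = w n + w (n + 1) := by
      rw [w_nonneg h, w_nonneg (by omega), ← y_zpow_succ]; ring
    rw [this]; exact add_mem (w_mem _) (w_mem _)
  · rcases eq_or_lt_of_le (show n + 1 ≤ 0 by omega) with h1 | h1
    · have : (1 + y) * w n = w n + (w 0 + w 1) := by
        have hn : n = -1 := by omega
        subst hn
        rw [w_neg (by norm_num), w_nonneg le_rfl, w_nonneg (by norm_num)]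
        have := y_ne
        rw [zpow_neg_one, zpow_zero, zpow_one]
        field_simp
      rw [this]; exact add_mem (w_mem _) (add_mem (w_mem _) (w_mem _))
    · have : (1 + y) * w n = w n + w (n + 1) := by
        rw [w_neg h, w_neg h1, ← y_zpow_succ]; ring
      rw [this]; exact add_mem (w_mem _) (w_mem _)

lemma w_mul_w (n m : ℤ) : w n * w m ∈ Mw := by
  have key : ∀ n m : ℤ, 0 ≤ n → m < 0 → w n * w m ∈ Mw := by
    intro n m hn hm
    rcases le_or_gt 0 (n + m) with h | h
    · have : w n * w m = w (n + m) + w (n + m + 1) := by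
        rw [w_nonneg hn, w_neg hm, w_nonneg h, w_nonneg (by omega), ← y_zpow_succ,
          zpow_add₀ y_ne]; ring
      rw [this]; exact add_mem (w_mem _) (w_mem _)
    · have : w n * w m = w (n + m) := by
        rw [w_nonneg hn, w_neg hm, w_neg h, zpow_add₀ y_ne]; ring
      rw [this]; exact w_mem _
  rcases le_or_gt 0 n with hn | hn <;> rcases le_or_gt 0 m with hm | hm
  · have : w n * w m = w (n + m) := by
      rw [w_nonneg hn, w_nonneg hm, w_nonneg (by omega), zpow_add₀ y_ne]
    rw [this]; exact w_mem _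
  · exact key n m hn hm
  · rw [mul_comm]; exact key m n hm hn
  · have : w n * w m = w (n + m) + w (n + m + 1) := by
      rw [w_neg hn, w_neg hm, w_neg (by omega), w_neg (by omega), ← y_zpow_succ,
        zpow_add₀ y_ne]; ring
    rw [this]; exact add_mem (w_mem _) (w_mem _)

lemma pow_mul_mem (r : ℕ) {a : Amb} (ha : a ∈ Mw) : (1 + y) ^ r * a ∈ Mw := by
  induction r with
  | zero => simpa using ha
  | succ r ih =>
    rw [pow_succ', mul_assoc]
    generalize (1 + y) ^ r * a = c at ih
    refine AddSubmonoid.closure_induction (motive := fun c _ => (1 + y) * c ∈ Mw) ?_ ?_ ?_ ih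
    · rintro _ ⟨n, rfl⟩; exact one_add_y_mul_w n
    · simp
    · intro a b _ _ ha hb
      rw [mul_add]; exact add_mem ha hb

/-- Non-negative combinations of the `v q`. -/
noncomputable def Mv : AddSubmonoid (Amb) := AddSubmonoid.closure (Set.range v)

lemma E_mul_mem (k : ℤ) {a : Amb} (ha : a ∈ Mw) : E k * a ∈ Mv := by
  refine AddSubmonoid.closure_induction (motive := fun a _ => E k * a ∈ Mv) ?_ ?_ ?_ ha
  · rintro _ ⟨n, rfl⟩; exact AddSubmonoid.subset_closure ⟨(k, n), rfl⟩
  · simp
  · intro a b _ _ ha hb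
    rw [mul_add]; exact add_mem ha hb

lemma v_mul_v (q r : ℤ × ℤ) : v q * v r ∈ Mv := by
  obtain ⟨t, ht⟩ := E_mul q.1 r.1
  have : v q * v r = E (q.1 + r.1) * ((1 + y) ^ t * (w q.2 * w r.2)) := by
    unfold v
    calc E q.1 * w q.2 * (E r.1 * w r.2) = (E q.1 * E r.1) * (w q.2 * w r.2) := by ring
      _ = _ := by rw [ht]; ring
  rw [this]
  exact E_mul_mem _ (pow_mul_mem _ (w_mul_w _ _))

/-! ### Linear independence -/

section LinInd

open Polynomial

/-- The evaluation `x ↦ X`, `y ↦ C X` into `ℚ[Y][X]`. -/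
noncomputable def toPoly : MvPolynomial (Idx 1 1) ℚ →ₐ[ℚ] (ℚ[X])[X] :=
  MvPolynomial.aeval (fun i => Sum.elim (fun _ => X) (fun _ => C X) i)

/-- numerators: `x^K y^K v q` as a polynomial -/
noncomputable def num (K : ℕ) (q : ℤ × ℤ) : MvPolynomial (Idx 1 1) ℚ :=
  MvPolynomial.X (Sum.inl 0) ^ (K + q.1).toNat * (MvPolynomial.X (Sum.inr 0) ^ (K + q.2).toNat *
    (1 + MvPolynomial.X (Sum.inr 0)) ^ ((-q.1).toNat + if q.2 < 0 then 1 else 0))

lemma algMap_num (K : ℕ) (q : ℤ × ℤ) (h1 : 0 ≤ K + q.1) (h2 : 0 ≤ K + q.2) :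
    algebraMap _ (Amb) (num K q) = x ^ K * y ^ K * v q := by
  have hE : x ^ K * E q.1 = x ^ (K + q.1).toNat * (1 + y) ^ (-q.1).toNat := by
    rcases le_or_gt 0 q.1 with h | h
    · obtain ⟨a, ha⟩ := Int.eq_ofNat_of_zero_le h
      rw [ha, E_natCast]
      have : (-(a : ℤ)).toNat = 0 := by omega
      rw [this, pow_zero, mul_one, ← pow_add]; congr 1
    · obtain ⟨a, ha⟩ := Int.eq_ofNat_of_zero_le (show 0 ≤ -q.1 by omega)
      have hq : q.1 = -(a : ℤ) := by omega
      rw [hq, E_neg_natCast]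
      have hKa : a ≤ K := by omega
      obtain ⟨c, rfl⟩ := Nat.exists_eq_add_of_le hKa
      have e1 : (((a + c : ℕ) : ℤ) + -(a : ℤ)).toNat = c := by omega
      have e2 : (- -(a : ℤ)).toNat = a := by omega
      rw [e1, e2, pow_add, mul_right_comm, ← mul_pow, xx', add_comm y 1, mul_comm]
  have hw : y ^ K * w q.2 = y ^ (K + q.2).toNat * (1 + y) ^ (if q.2 < 0 then 1 else 0) := by
    have hz : (y ^ K * y ^ q.2 : Amb) = y ^ (K + q.2).toNat := by
      rw [← zpow_natCast, ← zpow_add₀ y_ne, ← zpow_natCast y (K + q.2).toNat, Int.toNat_of_nonneg h2]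
    rcases le_or_gt 0 q.2 with h | h
    · rw [w_nonneg h, if_neg (by omega), pow_zero, mul_one, hz]
    · rw [w_neg h, if_pos h, pow_one, ← mul_assoc, hz]
  have : algebraMap _ (Amb) (num K q) = x ^ (K + q.1).toNat * (y ^ (K + q.2).toNat *
      (1 + y) ^ ((-q.1).toNat + if q.2 < 0 then 1 else 0)) := by
    simp [num, x, y]
  rw [this, pow_add (1 + y)]
  calc _ = (x ^ (K + q.1).toNat * (1 + y) ^ (-q.1).toNat) *
        (y ^ (K + q.2).toNat * (1 + y) ^ (if q.2 < 0 then 1 else 0)) := by ring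
    _ = _ := by rw [← hE, ← hw]; unfold v; ring

lemma coeff_num (K : ℕ) (q r : ℤ × ℤ) (h1 : 0 ≤ K + q.1) (h2 : 0 ≤ K + q.2)
    (h3 : 0 ≤ K + r.1) (h4 : 0 ≤ K + r.2) (h : r.2 ≤ q.2) :
    ((toPoly (num K q)).coeff (K + r.1).toNat).coeff (K + r.2).toNat = if q = r then 1 else 0 := by
  have e : toPoly (num K q) = X ^ (K + q.1).toNat * C (X ^ (K + q.2).toNat *
      (1 + X) ^ ((-q.1).toNat + if q.2 < 0 then 1 else 0)) := by
    simp [num, toPoly]
  rw [e, coeff_X_pow_mul']
  by_cases h5 : q.1 = r.1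
  · rw [h5, if_pos le_rfl, Nat.sub_self, coeff_C_zero, coeff_X_pow_mul']
    by_cases h6 : q.2 = r.2
    · rw [if_pos (by rw [h6]), if_pos (Prod.ext h5 h6), h6, Nat.sub_self, coeff_zero_eq_eval_zero]
      simp
    · rw [if_neg (by omega), if_neg (fun hh => h6 (by rw [hh]))]
  · rw [if_neg (show ¬ q = r from fun hh => h5 (by rw [hh]))]
    by_cases h6 : (K + q.1).toNat ≤ (K + r.1).toNat
    · rw [if_pos h6, coeff_C_of_ne_zero (by omega), coeff_zero]
    · rw [if_neg h6, coeff_zero]

lemma linInd_v : LinearIndependent ℤ v := by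
  rw [linearIndependent_iff]
  intro c hc
  by_contra hne
  have hs : c.support.Nonempty := by
    rw [Finset.nonempty_iff_ne_empty]; intro h0; exact hne (Finsupp.support_eq_empty.1 h0)
  obtain ⟨r, hr, hmin⟩ := Finset.exists_min_image c.support (fun q => q.2) hs
  -- a common bound
  obtain ⟨K, hK⟩ : ∃ K : ℕ, ∀ q ∈ c.support, 0 ≤ K + q.1 ∧ 0 ≤ K + q.2 := by
    refine ⟨∑ q ∈ c.support, (q.1.natAbs + q.2.natAbs), fun q hq => ?_⟩
    have := Finset.single_le_sum (f := fun q : ℤ × ℤ => q.1.natAbs + q.2.natAbs)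
      (fun _ _ => Nat.zero_le _) hq
    constructor <;> omega
  have h1 : ∑ q ∈ c.support, c q • num K q = 0 := by
    apply algMap_inj
    rw [map_sum, map_zero]
    have : ∀ q ∈ c.support, algebraMap _ (Amb) (c q • num K q) =
        x ^ K * y ^ K * (c q • v q) := by
      intro q hq
      rw [map_zsmul, algMap_num K q (hK q hq).1 (hK q hq).2, mul_smul_comm]
    rw [Finset.sum_congr rfl this, ← Finset.mul_sum]
    have h2 : ∑ q ∈ c.support, c q • v q = 0 := by
      rw [Finsupp.linearCombination_apply] at hc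
      exact hc
    rw [h2, mul_zero]
  have h2 := congrArg (fun P => ((toPoly P).coeff (K + r.1).toNat).coeff (K + r.2).toNat) h1
  simp only [map_sum, map_zsmul, map_zero, finsetSum_coeff, coeff_zero] at h2
  rw [Finset.sum_congr rfl (g := fun q => if q = r then (c q : ℚ) else 0)] at h2
  · rw [Finset.sum_ite_eq' c.support r] at h2
    rw [if_pos hr] at h2
    exact (Finsupp.mem_support_iff.1 hr) (by exact_mod_cast h2)
  · intro q hq
    have := coeff_num K q r (hK q hq).1 (hK q hq).2 (hK r hr).1 (hK r hr).2 (hmin q hq)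
    rw [Polynomial.coeff_smul, Polynomial.coeff_smul, this]
    split_ifs with h
    · simp
    · simp

end LinInd

/-! ### The basis of the cluster algebra -/

lemma x_mem : x ∈ clusterAlgebra B₁ :=
  Subring.subset_closure (Or.inl ((isClusterVariable_iff x).2 (Or.inl rfl)))
lemma x'_mem : x' ∈ clusterAlgebra B₁ :=
  Subring.subset_closure (Or.inl ((isClusterVariable_iff x').2 (Or.inr rfl)))
lemma y_mem : y ∈ clusterAlgebra B₁ :=
  Subring.subset_closure (Or.inr (Or.inl ((isFrozenVariable_iff y).2 rfl)))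
lemma y_inv_mem : y⁻¹ ∈ clusterAlgebra B₁ :=
  Subring.subset_closure (Or.inr (Or.inr ((isFrozenVariable_iff _).2 (inv_inv y))))

lemma y_zpow_mem (n : ℤ) : y ^ n ∈ clusterAlgebra B₁ := by
  rcases Int.eq_nat_or_neg n with ⟨a, rfl | rfl⟩
  · rw [zpow_natCast]; exact pow_mem y_mem a
  · rw [zpow_neg, zpow_natCast, ← inv_pow]; exact pow_mem y_inv_mem a

lemma E_mem (k : ℤ) : E k ∈ clusterAlgebra B₁ := by
  unfold E; split_ifs
  · exact pow_mem x_mem _
  · exact pow_mem x'_mem _

lemma w_mem' (n : ℤ) : w n ∈ clusterAlgebra B₁ := by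
  unfold w; split_ifs
  · exact y_zpow_mem n
  · exact mul_mem (y_zpow_mem n) (add_mem (one_mem _) y_mem)

lemma v_mem (q : ℤ × ℤ) : v q ∈ clusterAlgebra B₁ := mul_mem (E_mem _) (w_mem' _)

noncomputable def vA (q : ℤ × ℤ) : clusterAlgebra B₁ := ⟨v q, v_mem q⟩

/-- the inclusion of the cluster algebra in the ambient field, as a `ℤ`-linear map -/
noncomputable def incl : clusterAlgebra B₁ →ₗ[ℤ] Amb :=
  (clusterAlgebra B₁).subtype.toAddMonoidHom.toIntLinearMap

lemma incl_apply (a : clusterAlgebra B₁) : incl a = (a : Amb) := rfl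

lemma linInd_vA : LinearIndependent ℤ vA := by
  refine LinearIndependent.of_comp incl ?_
  exact linInd_v

/-- The span of the `v q` is closed under multiplication. -/
lemma span_mul {a b : Amb} (ha : a ∈ Submodule.span ℤ (Set.range v))
    (hb : b ∈ Submodule.span ℤ (Set.range v)) : a * b ∈ Submodule.span ℤ (Set.range v) := by
  have hM : ∀ c ∈ Mv, c ∈ Submodule.span ℤ (Set.range v) := by
    intro c hc
    have : Mv ≤ (Submodule.span ℤ (Set.range v)).toAddSubmonoid :=
      AddSubmonoid.closure_le.2 Submodule.subset_span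
    exact this hc
  induction ha using Submodule.span_induction with
  | mem a h =>
    obtain ⟨q, rfl⟩ := h
    induction hb using Submodule.span_induction with
    | mem b h => obtain ⟨r, rfl⟩ := h; exact hM _ (v_mul_v q r)
    | zero => rw [mul_zero]; exact zero_mem _
    | add b c _ _ hb hc => rw [mul_add]; exact add_mem hb hc
    | smul t b _ hb => rw [mul_smul_comm]; exact Submodule.smul_mem _ _ hb
  | zero => rw [zero_mul]; exact zero_mem _
  | add a c _ _ ha hc => rw [add_mul]; exact add_mem ha hc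
  | smul t a _ ha => rw [smul_mul_assoc]; exact Submodule.smul_mem _ _ ha

lemma v_zero : v (0, 0) = 1 := by simp [v, E, w]

lemma v_x : v (1, 0) = x := by simp [v, E, w]

lemma v_x' : v (-1, 0) = x' := by simp [v, E, w]

lemma v_y : v (0, 1) = y := by simp [v, E, w]

lemma v_y_inv : v (0, -1) - v (0, 0) = y⁻¹ := by
  have := y_ne
  rw [v_zero]
  simp [v, E, w]
  field_simp
  ring

/-- The span of the `v q`, as a subring. -/
noncomputable def spanRing : Subring (Amb) where
  carrier := Submodule.span ℤ (Set.range v)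
  mul_mem' := span_mul
  one_mem' := by
    have : v (0, 0) ∈ Submodule.span ℤ (Set.range v) := Submodule.subset_span ⟨_, rfl⟩
    rwa [v_zero] at this
  add_mem' := fun ha hb => add_mem ha hb
  zero_mem' := zero_mem _
  neg_mem' := fun ha => neg_mem ha

lemma v_mem_span (q : ℤ × ℤ) : v q ∈ spanRing :=
  Submodule.subset_span (s := Set.range v) (R := ℤ) ⟨q, rfl⟩

lemma le_spanRing : clusterAlgebra B₁ ≤ spanRing := by
  unfold clusterAlgebra
  rw [Subring.closure_le]
  rintro f (h | h | h)
  · rcases (isClusterVariable_iff f).1 h with rfl | rfl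
    · rw [← v_x]; exact v_mem_span _
    · rw [← v_x']; exact v_mem_span _
  · rw [(isFrozenVariable_iff f).1 h, ← v_y]; exact v_mem_span _
  · have : f = y⁻¹ := by rw [← (isFrozenVariable_iff f⁻¹).1 h, inv_inv]
    rw [this, ← v_y_inv]
    exact sub_mem (v_mem_span _) (v_mem_span _)

lemma span_vA : ⊤ ≤ Submodule.span ℤ (Set.range vA) := by
  intro a _
  have h : (a : Amb) ∈ Submodule.span ℤ (Set.range v) := le_spanRing a.2
  have h2 : Set.range v = incl '' Set.range vA := by
    rw [← Set.range_comp]; rfl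
  rw [h2, ← Submodule.map_span] at h
  obtain ⟨b, hb, hab⟩ := h
  rw [incl_apply] at hab
  rwa [← Subtype.ext hab]

noncomputable def β : Module.Basis (ℤ × ℤ) ℤ (clusterAlgebra B₁) := Module.Basis.mk linInd_vA span_vA

lemma β_apply (q : ℤ × ℤ) : β q = vA q := Module.Basis.mk_apply _ _ _

lemma β_coe (q : ℤ × ℤ) : ((β q : clusterAlgebra B₁) : Amb) = v q := by rw [β_apply]; rfl

lemma nonneg_of_mem {a : clusterAlgebra B₁} (ha : a ∈ AddSubmonoid.closure (Set.range β))
    (k : ℤ × ℤ) : 0 ≤ β.repr a k := by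
  induction ha using AddSubmonoid.closure_induction with
  | mem a h =>
    obtain ⟨q, rfl⟩ := h
    rw [Module.Basis.repr_self, Finsupp.single_apply]
    split_ifs <;> norm_num
  | zero => simp
  | add a b _ _ ha hb => rw [map_add, Finsupp.add_apply]; exact add_nonneg ha hb

lemma mul_mem_closure (q r : ℤ × ℤ) : β q * β r ∈ AddSubmonoid.closure (Set.range β) := by
  have h : v q * v r ∈ Mv := v_mul_v q r
  have h2 : Set.range v = (clusterAlgebra B₁).subtype.toAddMonoidHom '' Set.range β := by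
    rw [← Set.range_comp]; congr 1; funext q; exact (β_coe q).symm
  unfold Mv at h
  rw [h2, ← AddMonoidHom.map_mclosure] at h
  obtain ⟨a, ha, hab⟩ := h
  have : a = β q * β r := by
    apply Subtype.ext
    rw [Subring.coe_mul, β_coe, β_coe]; exact hab
  rwa [← this]

lemma good : IsGoodBasis B₁ β where
  monomials := by
    rintro f ⟨s, hs, e, he⟩
    rcases (reachable_iff s).1 hs with rfl | rfl
    · refine ⟨((e (Sum.inl 0) : ℤ), (e (Sum.inr 0) : ℤ)), ?_⟩
      apply Subtype.ext
      rw [β_coe, he, B₁_z]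
      simp [v, E_natCast, w]
    · refine ⟨(-(e (Sum.inl 0) : ℤ), (e (Sum.inr 0) : ℤ)), ?_⟩
      apply Subtype.ext
      rw [β_coe, he]
      simp [v, E_neg_natCast, w, s₁]
  nonneg := fun i j k => nonneg_of_mem (mul_mem_closure i j) k

/-- No basis element `v (k, n)` with `n < 0` is real. -/
lemma not_real {k n : ℤ} (hn : n < 0) : ¬ IsReal β (k, n) := by
  rintro ⟨q, hq⟩
  have h : β (k, n) ^ 2 = β (2 * k, 2 * n) + β (2 * k, 2 * n + 1) := by
    apply Subtype.ext
    rw [Subring.coe_pow, Subring.coe_add, β_coe, β_coe, β_coe]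
    have hE : E k ^ 2 = E (2 * k) := by
      rcases Int.eq_nat_or_neg k with ⟨a, rfl | rfl⟩
      · rw [E_natCast, show (2 * (a : ℤ)) = ((2 * a : ℕ) : ℤ) by push_cast; ring, E_natCast]; ring
      · rw [E_neg_natCast, show (2 * -(a : ℤ)) = -((2 * a : ℕ) : ℤ) by push_cast; ring,
          E_neg_natCast]; ring
    have hw : w n ^ 2 = w (2 * n) + w (2 * n + 1) := by
      rw [w_neg hn, w_neg (by omega), w_neg (by omega), ← y_zpow_succ,
        show 2 * n = n + n by ring, zpow_add₀ y_ne]; ring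
    simp only [v]
    rw [mul_pow, hE, hw]; ring
  rw [h] at hq
  have h2 := congrArg β.repr hq
  rw [map_add, Module.Basis.repr_self, Module.Basis.repr_self, Module.Basis.repr_self] at h2
  have e1 := DFunLike.congr_fun h2 (2 * k, 2 * n)
  have e2 := DFunLike.congr_fun h2 (2 * k, 2 * n + 1)
  simp only [Finsupp.add_apply, Finsupp.single_apply, Prod.mk.injEq, true_and] at e1 e2
  rw [if_neg (show ¬ (2 * n + 1 = 2 * n) by omega)] at e1
  rw [if_neg (show ¬ (2 * n = 2 * n + 1) by omega)] at e2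
  simp only [if_true, add_zero, zero_add] at e1 e2
  have f1 : q = (2 * k, 2 * n) := by
    by_contra hne
    rw [if_neg hne] at e1; norm_num at e1
  have f2 : q = (2 * k, 2 * n + 1) := by
    by_contra hne
    rw [if_neg hne] at e2; norm_num at e2
  rw [f1] at f2
  have := congrArg Prod.snd f2
  simp only at this
  omega

/-! ### The point `x = 2`, `y = 10` -/

/-- evaluation at `x = 2`, `y = 10` -/
noncomputable def ev : MvPolynomial (Idx 1 1) ℚ →+* ℝ :=
  (MvPolynomial.aeval (fun i => Sum.elim (fun _ => (2 : ℝ)) (fun _ => (10 : ℝ)) i) :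
    MvPolynomial (Idx 1 1) ℚ →ₐ[ℚ] ℝ).toRingHom

/-- polynomials not vanishing at the point -/
noncomputable def S : Submonoid (MvPolynomial (Idx 1 1) ℚ) where
  carrier := {f | ev f ≠ 0}
  mul_mem' := fun {a b} ha hb => by
    exact fun h => (mul_ne_zero ha hb) (by rw [← map_mul]; exact h)
  one_mem' := by simp

lemma S_le : S ≤ nonZeroDivisors (MvPolynomial (Idx 1 1) ℚ) := by
  intro f hf
  rw [mem_nonZeroDivisors_iff_ne_zero]
  rintro rfl
  exact hf (map_zero _)

/-- the local ring at the point -/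
noncomputable abbrev L : Subalgebra (MvPolynomial (Idx 1 1) ℚ) (Amb) :=
  Localization.subalgebra.ofField (Amb) S S_le

noncomputable def evL : L →+* ℝ :=
  IsLocalization.lift (M := S) (S := L) (g := ev)
    (fun s => isUnit_iff_ne_zero.2 s.2)

lemma ev_x : ev (MvPolynomial.X (Sum.inl 0)) = 2 := by simp [ev]
lemma ev_y : ev (MvPolynomial.X (Sum.inr 0)) = 10 := by simp [ev]

lemma mem_L_iff (f : Amb) : f ∈ L ↔ ∃ (a s : MvPolynomial (Idx 1 1) ℚ) (_ : s ∈ S),
    f = algebraMap _ (Amb) a * (algebraMap _ (Amb) s)⁻¹ := Iff.rfl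

lemma X_mem_S : MvPolynomial.X (Sum.inl 0) ∈ S := by
  show ev _ ≠ 0; rw [ev_x]; norm_num

lemma Y_mem_S : MvPolynomial.X (Sum.inr 0) ∈ S := by
  show ev _ ≠ 0; rw [ev_y]; norm_num

lemma algMap_mem_L (a : MvPolynomial (Idx 1 1) ℚ) : algebraMap _ (Amb) a ∈ L :=
  L.algebraMap_mem a

lemma x_mem_L : x ∈ L := algMap_mem_L _
lemma y_mem_L : y ∈ L := algMap_mem_L _
lemma x'_mem_L : x' ∈ L := by
  rw [mem_L_iff]
  exact ⟨MvPolynomial.X (Sum.inr 0) + 1, MvPolynomial.X (Sum.inl 0), X_mem_S, by
    simp [x', x, y, div_eq_mul_inv]⟩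
lemma y_inv_mem_L : y⁻¹ ∈ L := by
  rw [mem_L_iff]
  exact ⟨1, MvPolynomial.X (Sum.inr 0), Y_mem_S, by simp [y]⟩

lemma le_L : clusterAlgebra B₁ ≤ L.toSubring := by
  unfold clusterAlgebra
  rw [Subring.closure_le]
  rintro f (h | h | h)
  · rcases (isClusterVariable_iff f).1 h with rfl | rfl
    · exact x_mem_L
    · exact x'_mem_L
  · rw [(isFrozenVariable_iff f).1 h]; exact y_mem_L
  · have : f = y⁻¹ := by rw [← (isFrozenVariable_iff f⁻¹).1 h, inv_inv]
    rw [this]; exact y_inv_mem_L

/-- The ring homomorphism `p` with `p x = 2`, `p y = 10`. -/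
noncomputable def p : clusterAlgebra B₁ →+* ℝ :=
  evL.comp (Subring.inclusion le_L)

lemma p_apply (a : clusterAlgebra B₁) : p a = evL ⟨a, le_L a.2⟩ := rfl

lemma p_algMap (a : MvPolynomial (Idx 1 1) ℚ) (h : algebraMap _ (Amb) a ∈ clusterAlgebra B₁) :
    p ⟨algebraMap _ (Amb) a, h⟩ = ev a := by
  rw [p_apply]
  exact IsLocalization.lift_eq (M := S) (S := L) (g := ev) _ a

lemma p_x : p ⟨x, x_mem⟩ = 2 := by
  have := p_algMap (MvPolynomial.X (Sum.inl 0)) x_mem
  rw [ev_x] at this; exact this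

lemma p_y : p ⟨y, y_mem⟩ = 10 := by
  have := p_algMap (MvPolynomial.X (Sum.inr 0)) y_mem
  rw [ev_y] at this; exact this

lemma p_x' : p ⟨x', x'_mem⟩ = 11 / 2 := by
  have h : (⟨x, x_mem⟩ * ⟨x', x'_mem⟩ : clusterAlgebra B₁) = ⟨y, y_mem⟩ + 1 :=
    Subtype.ext xx'
  have h2 := congrArg p h
  rw [map_mul, map_add, p_x, p_y, map_one] at h2
  linarith

lemma p_E (k : ℤ) : 1 ≤ p ⟨E k, E_mem k⟩ := by
  rcases Int.eq_nat_or_neg k with ⟨a, rfl | rfl⟩
  · have : (⟨E a, E_mem a⟩ : clusterAlgebra B₁) = ⟨x, x_mem⟩ ^ a := Subtype.ext (by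
      rw [Subring.coe_pow]; exact E_natCast a)
    rw [this, map_pow, p_x]
    exact one_le_pow₀ (by norm_num)
  · have : (⟨E (-a), E_mem (-a)⟩ : clusterAlgebra B₁) = ⟨x', x'_mem⟩ ^ a := Subtype.ext (by
      rw [Subring.coe_pow]; exact E_neg_natCast a)
    rw [this, map_pow, p_x']
    exact one_le_pow₀ (by norm_num)

lemma p_w {n : ℤ} (hn : 0 ≤ n) : 1 ≤ p ⟨w n, w_mem' n⟩ := by
  obtain ⟨a, rfl⟩ := Int.eq_ofNat_of_zero_le hn
  have : (⟨w a, w_mem' a⟩ : clusterAlgebra B₁) = ⟨y, y_mem⟩ ^ a := Subtype.ext (by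
    show w a = y ^ a
    rw [w_nonneg hn, zpow_natCast])
  rw [this, map_pow, p_y]
  exact one_le_pow₀ (by norm_num)

lemma p_β_nonneg (k : ℤ) {n : ℤ} (hn : 0 ≤ n) : 1 ≤ p (β (k, n)) := by
  have : β (k, n) = ⟨E k, E_mem k⟩ * ⟨w n, w_mem' n⟩ := Subtype.ext (by
    rw [β_coe]; rfl)
  rw [this, map_mul]
  exact one_le_mul_of_one_le_of_one_le (p_E k) (p_w hn)

lemma p_small : p (β (0, -2)) < 1 := by
  have h : β (0, -2) * ⟨y, y_mem⟩ ^ 2 = ⟨y, y_mem⟩ + 1 := Subtype.ext (by
    have := y_ne
    rw [Subring.coe_mul, β_coe]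
    simp only [v, Subring.coe_pow, Subring.coe_add, Subring.coe_one]
    rw [w_neg (by norm_num)]
    have hE : E 0 = 1 := by simp [E]
    rw [hE, zpow_neg, show ((2 : ℤ)) = ((2 : ℕ) : ℤ) by norm_num, zpow_natCast]
    field_simp
    ring)
  have h2 := congrArg p h
  rw [map_mul, map_pow, map_add, p_y, map_one] at h2
  nlinarith

/-- Counterexample in explicit form: type `A₁` with a single (invertible) frozen variable has a
good basis and a totally positive point at which all real basis elements are `≥ 1`, while some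
basis element is `< 1`. -/
theorem explicit : IsGoodBasis B₁ β ∧ TotallyPositive B₁ p ∧ (∀ i, IsReal β i → 1 ≤ p (β i)) ∧
    ∃ i, p (β i) < 1 := by
  refine ⟨good, ?_, ?_, ⟨(0, -2), p_small⟩⟩
  · intro f hf
    rcases hf with hf | hf
    · rcases (isClusterVariable_iff _).1 hf with h | h
      · have : f = ⟨x, x_mem⟩ := Subtype.ext h
        rw [this, p_x]; norm_num
      · have : f = ⟨x', x'_mem⟩ := Subtype.ext h
        rw [this, p_x']; norm_num
    · have : f = ⟨y, y_mem⟩ := Subtype.ext ((isFrozenVariable_iff _).1 hf)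
      rw [this, p_y]; norm_num
  · rintro ⟨k, n⟩ hr
    rcases lt_or_ge n 0 with h | h
    · exact absurd hr (not_real h)
    · exact p_β_nonneg k h

lemma isSeed : IsSeed B₁ := by
  refine ⟨?_, fun _ => 1, fun _ => one_pos, fun i j => by simp [B₁]⟩
  have h : (MvPolynomial.aeval B₁.z : MvPolynomial (Idx 1 1) ℚ →ₐ[ℚ] Amb) =
      IsScalarTower.toAlgHom ℚ (MvPolynomial (Idx 1 1) ℚ) Amb := by
    apply MvPolynomial.algHom_ext
    intro i
    simp [B₁]
  rw [AlgebraicIndependent, h]
  exact algMap_inj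

/-- Q1 is false for skew-symmetrizable cluster algebras of geometric type, already with one
mutable and one frozen direction. -/
theorem result : ¬ QuestionOne ∧
    ∃ (F : Type) (_ : Field F) (_ : Algebra ℚ F) (s₀ : Seed F 1 1),
      IsSeed s₀ ∧ StrongCounterexample s₀ := by
  obtain ⟨hg, hp, hreal, i, hi⟩ := explicit
  refine ⟨?_, Amb, inferInstance, inferInstance, B₁, isSeed, ℤ × ℤ, β, p, hg, hp, hreal, i, hi⟩
  intro h
  have h1 := h Amb 1 1 B₁ isSeed (ℤ × ℤ) β hg
  have h2 : p ∈ realSuperunitary β := ⟨hp, fun i hr _ => hreal i hr⟩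
  rw [← h1] at h2
  exact absurd (h2 i) (not_le.2 hi)

end Pool.Agent.Results.MP_fc212e_co.FrozenCounterexample
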