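import Pool.Agent.CluF.Fin

/-!
# The superunitary region of a cluster algebra with many arrows, in every rank

Cluster algebras of geometric type, with `n` directions, the mutable ones `M`, the frozen ones
outside `M`, those in `V` inverted. Assume that in every seed all off-diagonal entries of the
principal part of the exchange matrix are nonzero and that, if there are at least three mutable
directions, the products `|b i j * b j i|` are at least `9`. It is enough to assume this for the
initial seed if it is acyclic or if there are at most two mutable directions.

Then for every good basis the superunitary region is cut out by the real indecomposable elements of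
the basis; it is the set of points at which all cluster variables and frozen variables are at least
`1` and the inverted frozen variables are equal to `1`.

The definitions are in `Pool/Agent/CluF/Defs.lean` and `Pool/Agent/CluN/Defs.lean` (seeds,
mutation).
-/

namespace Pool.Agent.Results.MP_fc212e_co.ManyArrows

open Pool.Agent.CluF

theorem result (F : Type) [Field F] (n : ℕ) (M V : Finset (Fin n)) (hMV : Disjoint M V)
    (hM : M.Nonempty) (s₀ : CluN.Seed F n) (hs : IsSeed M s₀)
    (h : (AbundantOn M s₀.b ∧ (M.card ≤ 2 ∨ AcyclicOn M s₀.b)) ∨
      ∀ b, MReach M s₀.b b → AbundantOn M b)
    (ι : Type) (β : Module.Basis ι ℤ (clAlg M V s₀)) (hβ : IsGood M V s₀ β) :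
    superunitary β = realSuperunitary β ∧
      superunitary β = {p | ∀ x : clAlg M V s₀,
        (IsClusterVar M s₀ (x : F) → 1 ≤ p x) ∧ (IsFrozenVar M s₀ (x : F) → 1 ≤ p x) ∧
        ((∃ i ∈ V, (x : F) = s₀.z i) → p x = 1)} :=
  regionsF hMV hM hs h hβ

end Pool.Agent.Results.MP_fc212e_co.ManyArrows
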